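import Mathlib
import Pool.Agent.Helper573.Base
import Pool.Agent.Helper573.Bridge
import Pool.Agent.Helper573.Data3
import Pool.Agent.Helper573.Data5
import Pool.Agent.Helper573.Data7

set_option autoImplicit false

namespace Pool.Agent.Results.MP_485030_co.Exact

/-- The complete answer: for `n ≥ 1` there is a nondegenerate simplex `S` (with vertices `v`) such
that `S ⊆ [0,1]^n ⊆ n S`, the dilation being centred at the centre of gravity of `S`, if and only
if `n` is none of `2`, `4`, `6`. -/
theorem result (n : ℕ) (hn : 1 ≤ n) :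
    (∃ v : Fin (n + 1) → (Fin n → ℝ),
        AffineIndependent ℝ v ∧
        convexHull ℝ (Set.range v) ⊆ Set.Icc (0 : Fin n → ℝ) 1 ∧
        Set.Icc (0 : Fin n → ℝ) 1 ⊆
          (AffineMap.homothety (Finset.univ.centroid ℝ v) (n : ℝ)) ''
            convexHull ℝ (Set.range v)) ↔
      n ≠ 2 ∧ n ≠ 4 ∧ n ≠ 6 := by
  have key : ∀ m : ℕ, 1 ≤ m → (∃ v : Fin (m + 1) → (Fin m → ℝ),
        AffineIndependent ℝ v ∧
        convexHull ℝ (Set.range v) ⊆ Set.Icc (0 : Fin m → ℝ) 1 ∧
        Set.Icc (0 : Fin m → ℝ) 1 ⊆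
          (AffineMap.homothety (Finset.univ.centroid ℝ v) (m : ℝ)) ''
            convexHull ℝ (Set.range v)) →
      ∃ v u : Fin m → Fin (m + 1) → ℝ, Pool.Agent.Helper573.Search.Full m v u := by
    rintro m hm ⟨v, hv, hS, hQ⟩
    refine Pool.Agent.Helper573.Bridge.exists_full hm v hv ?_ ?_
    · intro i j
      have h := hS (subset_convexHull ℝ _ (Set.mem_range_self i))
      exact ⟨h.1 j, h.2 j⟩
    · intro x hx
      exact hQ ⟨fun j => (hx j).1, fun j => (hx j).2⟩
  constructor
  · intro h
    refine ⟨?_, ?_, ?_⟩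
    · rintro rfl
      obtain ⟨v, u, hF⟩ := key 2 hn h
      exact Pool.Agent.Helper573.Data3.none v u hF
    · rintro rfl
      obtain ⟨v, u, hF⟩ := key 4 hn h
      exact Pool.Agent.Helper573.Data5.none v u hF
    · rintro rfl
      obtain ⟨v, u, hF⟩ := key 6 hn h
      exact Pool.Agent.Helper573.Data7.none v u hF
  · rintro ⟨h2, h4, h6⟩
    have hg : Pool.Agent.Helper573.Split.Good n := by
      rcases Nat.even_or_odd' n with ⟨k, hk | hk⟩
      · have hk4 : 4 ≤ k := by omega
        have h : n = 2 * (k - 2) + 4 := by omega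
        rw [h]
        exact Pool.Agent.Helper573.Base.good_even (k - 2) (by omega)
      · have h : n = 2 * (k + 1) - 1 := by omega
        rw [h]
        exact Pool.Agent.Helper573.Base.good_odd (k + 1) (by omega)
    obtain ⟨v, hv, h01, hcov⟩ := hg
    refine ⟨v, hv, ?_, ?_⟩
    · refine convexHull_min ?_ (convex_Icc _ _)
      rintro _ ⟨i, rfl⟩
      exact ⟨fun j => (h01 i j).1, fun j => (h01 i j).2⟩
    · intro x hx
      exact hcov x (fun j => ⟨hx.1 j, hx.2 j⟩)

end Pool.Agent.Results.MP_485030_co.Exact
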